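import Pool.Agent.H.MP_4f8442_nt.A

set_option autoImplicit false

namespace Pool.Agent.H.MP_d49ebf_nt

open Finset Filter MeasureTheory

theorem lift (α : UnitAddCircle) : ∃ x : ℝ, (x : UnitAddCircle) = α ∧ |x| = ‖α‖ := by
  obtain ⟨x, rfl⟩ := QuotientAddGroup.mk_surjective α
  exact ⟨x - round x, by rw [AddCircle.coe_sub, (AddCircle.coe_eq_zero_iff (1 : ℝ) (x := round x)).2 ⟨round x, by simp⟩, sub_zero], UnitAddCircle.norm_eq.symm⟩

theorem nrm {x : ℝ} (h : |x| ≤ 1 / 2) : ‖(x : UnitAddCircle)‖ = |x| :=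
  (AddCircle.norm_coe_eq_abs_iff 1 one_ne_zero).2 (by simpa using h)

variable {c : ℕ → ℕ} {C : ℕ}

theorem cnt (h : StrictMono c) (g : ∀ i, c (i + 1) ≤ c i + C * (i + 1)) (m : ℕ) :
    {α : UnitAddCircle | ∀ i ≥ m + 1, ‖c i • α‖ ≤ 1 / (8 * (2 * C + 1))}.Countable := by
  have p : (0 : ℝ) < c (m + 1) := by exact_mod_cast (Nat.succ_pos m).trans_le (h.id_le _)
  refine Set.PairwiseDisjoint.countable_of_isOpen (s := fun α => Metric.ball α (1 / (8 * (2 * C + 1)) / c (m + 1)))
    (fun α a β b d => Metric.ball_disjoint_ball (not_lt.1 fun e => d ?_)) (fun _ _ => Metric.isOpen_ball)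
    fun _ _ => ⟨_, Metric.mem_ball_self (by positivity)⟩
  obtain ⟨x, hx, f⟩ := lift (α - β)
  rw [dist_eq_norm, ← f, ← add_div, lt_div_iff₀ p] at e
  set δ : ℝ := 1 / (8 * (2 * C + 1))
  have q : δ * (8 * (2 * C + 1)) = 1 := one_div_mul_cancel (by positivity)
  have r : ∀ i ≥ m + 1, c i * |x| ≤ δ + δ := fun i j => by
    induction i, j using Nat.le_induction with
    | base => linarith
    | succ i j ih =>
      have : (c (i + 1) : ℝ) ≤ (2 * C + 1) * c i := by
        have := g i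
        have := h.id_le i
        simp only [id] at this
        exact_mod_cast (by nlinarith [Nat.mul_le_mul_left C (show i + 1 ≤ 2 * c i by omega)] : c (i + 1) ≤ (2 * C + 1) * c i)
      have l : |c (i + 1) * x| = c (i + 1) * |x| := by simp [abs_mul]
      rw [← l, ← nrm (by nlinarith [abs_nonneg x, Nat.cast_nonneg (α := ℝ) C]), ← nsmul_eq_mul, AddCircle.coe_nsmul, hx,
        smul_sub]
      exact (norm_sub_le ..).trans (add_le_add (a _ (by omega)) (b _ (by omega)))
  rw [← sub_eq_zero, ← norm_eq_zero, ← f]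
  by_contra s
  obtain ⟨n, t⟩ := exists_nat_gt ((δ + δ) / |x|)
  rw [div_lt_iff₀ ((abs_nonneg x).lt_of_ne' s)] at t
  have : (n : ℝ) ≤ c (n + m + 1) := by exact_mod_cast le_trans (by simp; omega) (h.id_le (n + m + 1))
  nlinarith [r (n + m + 1) (by omega), abs_nonneg x]

theorem rcd {α : UnitAddCircle} (h : ∀ q : ℕ, 0 < q → q • α ≠ 0) (Q₀ : ℕ) :
    ∃ Q > Q₀, ∀ k : ℕ, 0 < k → k < Q → 1 / (2 * Q : ℝ) ≤ ‖k • α‖ := by
  classical
  by_contra! a
  obtain ⟨j, hj, b⟩ := (Icc 1 (Q₀ + 1)).exists_min_image (fun k => ‖k • α‖) (by simp)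
  have p := norm_pos_iff.2 (h j (mem_Icc.1 hj).1)
  have ex : ∃ k : ℕ, 0 < k ∧ ‖k • α‖ < ‖j • α‖ := by
    obtain ⟨n, t⟩ := exists_nat_gt (1 / ‖j • α‖)
    obtain ⟨k, c, -, d⟩ := a (n + Q₀ + 1) (by omega)
    refine ⟨k, c, d.trans_le ?_⟩
    rw [div_lt_iff₀ p] at t
    rw [div_le_iff₀ (by positivity)]
    push_cast
    nlinarith [Nat.cast_nonneg (α := ℝ) Q₀, Nat.cast_nonneg (α := ℝ) n]
  obtain ⟨c, d⟩ := Nat.find_spec ex
  obtain ⟨q, e, f, g⟩ := a (Nat.find ex) (not_le.1 fun e => d.not_ge (b _ (mem_Icc.2 ⟨c, by omega⟩)))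
  replace d := d.trans_le (not_lt.1 fun i => Nat.find_min ex f ⟨e, i⟩)
  generalize Nat.find ex = Q at *
  obtain ⟨u, hu, u'⟩ := lift (q • α)
  obtain ⟨v, hv, v'⟩ := lift (Q • α)
  rw [← u', ← v'] at d
  have c' : (q : ℝ) < Q := by exact_mod_cast f
  have e' : (0 : ℝ) < q := by exact_mod_cast e
  rw [← u', lt_div_iff₀ (by linarith)] at g
  obtain ⟨z, hz⟩ := (AddCircle.coe_eq_zero_iff 1).1 (show ((Q • u - q • v : ℝ) : UnitAddCircle) = 0 by
    rw [AddCircle.coe_sub, AddCircle.coe_nsmul, AddCircle.coe_nsmul, hu, hv, smul_comm, sub_self])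
  simp only [zsmul_eq_mul, mul_one, nsmul_eq_mul] at hz
  have i := abs_sub (Q * u) (q * v)
  rw [← hz, abs_mul, abs_mul, Nat.abs_cast, Nat.abs_cast] at i
  obtain rfl : z = 0 := Int.abs_lt_one_iff.1 (by exact_mod_cast (by nlinarith [abs_nonneg v] : |(z : ℝ)| < 1))
  have : Q * |u| = q * |v| := by
    rw [← Nat.abs_cast Q, ← Nat.abs_cast q, ← abs_mul, ← abs_mul]
    congr 1
    simpa [sub_eq_zero] using hz.symm
  nlinarith [abs_nonneg v]

theorem irr (h : StrictMono c) (g : ∀ i, c (i + 1) ≤ c i + C * (i + 1)) {α : UnitAddCircle}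
    (a : ∀ q : ℕ, 0 < q → q • α ≠ 0) (m : ℕ) :
    ∃ J : Finset ℕ, (∀ i ∈ J, m ≤ i) ∧ 1 / (16 * (C + 1) : ℝ) ≤ ‖(∑ i ∈ J, c i) • α‖ := by
  by_contra! b
  set δ : ℝ := 1 / (16 * (C + 1))
  have q : δ * (16 * (C + 1)) = 1 := one_div_mul_cancel (by positivity)
  have p : 0 < δ := by positivity
  have p' : δ ≤ 1 / 16 := by nlinarith [Nat.cast_nonneg (α := ℝ) C]
  choose x hx x' using fun i => lift (c i • α)
  have s : ∀ J : Finset ℕ, (∀ i ∈ J, m ≤ i) → |∑ i ∈ J, x i| < δ := fun J => by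
    induction J using Finset.induction with
    | empty => simpa using p
    | insert j J d ih =>
      intro e
      have f := ih fun i f => e i (mem_insert_of_mem f)
      have l := b {j} (by simpa using e j (mem_insert_self ..))
      rw [sum_singleton, ← x'] at l
      rw [← nrm (by rw [sum_insert d]; linarith [abs_add_le (x j) (∑ i ∈ J, x i)])]
      refine lt_of_eq_of_lt (congrArg _ ?_) (b _ e)
      rw [sum_smul, QuotientAddGroup.mk_sum]
      simp [hx]
  obtain ⟨Q, r, t⟩ := rcd a (4 * (C + 1) * (m + 2))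
  set I := Q / (C + 1) - 1
  have u : ∀ J : Finset ℕ, (∀ i ∈ J, m ≤ i) → ∑ i ∈ J, |x i| ≤ 2 * δ := fun J d => by
    rw [← sum_filter_add_sum_filter_not J (0 ≤ x ·), sum_congr rfl fun i e => abs_of_nonneg (mem_filter.1 e).2,
      sum_congr rfl fun i e => abs_of_neg (not_le.1 (mem_filter.1 e).2), sum_neg_distrib]
    linarith [(abs_lt.1 (s _ fun i (e : i ∈ J.filter (0 ≤ x ·)) => d i (mem_filter.1 e).1)).2,
      (abs_lt.1 (s _ fun i (e : i ∈ J.filter (¬0 ≤ x ·)) => d i (mem_filter.1 e).1)).1]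
  have v := Nat.mul_div_le Q (C + 1)
  have w := Nat.lt_mul_div_succ Q C.succ_pos
  have y : 4 * (m + 2) ≤ Q / (C + 1) := (Nat.le_div_iff_mul_le C.succ_pos).2 (by linarith)
  have z := card_nsmul_le_sum (Ico m I) (fun i => |x (i + 1)| + |x i|) (1 / (2 * Q : ℝ)) fun i d => by
    obtain ⟨k, e⟩ := Nat.exists_eq_add_of_lt (h i.lt_succ_self)
    have := g i
    have f := Nat.mul_le_mul_left (C + 1) (show i + 1 ≤ Q / (C + 1) by have := (mem_Ico.1 d).2; omega)
    refine (t (k + 1) k.succ_pos (by simp only [Nat.succ_eq_add_one] at e; nlinarith)).trans ?_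
    rw [x', x', e, add_assoc, add_smul (c i)]
    exact le_trans (by simp) (norm_sub_le ..)
  rw [sum_add_distrib, sum_Ico_add' (fun i => |x i|), Nat.card_Ico, nsmul_eq_mul, mul_one_div,
    div_le_iff₀ (by have : 0 < Q := by omega
                    positivity)] at z
  have e : (Q : ℝ) < 2 * (C + 1) * (I - m : ℕ) := by
    exact_mod_cast (by nlinarith [show Q / (C + 1) + 1 ≤ 2 * (I - m) by omega] : Q < 2 * (C + 1) * (I - m))
  have f := u (Ico (m + 1) (I + 1)) fun i d => by have := (mem_Ico.1 d).1; omega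
  have f' := u (Ico m I) fun i d => (mem_Ico.1 d).1
  have : ((I - m : ℕ) : ℝ) ≤ 4 * δ * (2 * Q) := z.trans (by gcongr; linarith)
  nlinarith [Nat.cast_nonneg (α := ℝ) C, Nat.cast_nonneg (α := ℝ) Q]

/-- the test function -/
noncomputable def H (g : ℕ) : C(UnitAddCircle, ℝ) := ⟨fun α => 1 - (fourier g α).re, by fun_prop⟩

theorem nf (g : ℤ) (α : UnitAddCircle) : ‖fourier g α‖ = 1 := Circle.norm_coe _

theorem H0 (g : ℕ) (α : UnitAddCircle) : 0 ≤ H g α := sub_nonneg.2 ((Complex.re_le_norm _).trans (nf ..).le)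

theorem Hs (g : ℕ) (α : UnitAddCircle) : H g α = H 1 (g • α) := by simp [H]

theorem Hl {δ : ℝ} (p : 0 < δ) : ∃ κ > 0, ∀ (g : ℕ) (α : UnitAddCircle), δ ≤ ‖g • α‖ → κ ≤ H g α := by
  obtain ⟨κ, a, b⟩ := (isClosed_le continuous_const continuous_norm : IsClosed {β : UnitAddCircle | δ ≤ ‖β‖}).isCompact
    |>.exists_forall_le' (f := H 1) (a := 0) (H 1).continuous.continuousOn fun β b => (H0 ..).lt_of_ne' fun c => by
      have d := nf 1 β
      have e : (fourier 1 β).re = 1 := (sub_eq_zero.1 c).symm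
      rw [Complex.norm_eq_sqrt_sq_add_sq, Real.sqrt_eq_one, e] at d
      have : β = 0 := AddCircle.injective_toCircle one_ne_zero (Subtype.ext (Complex.ext (by simpa using e)
        (by simpa using d)))
      simp [this, p.not_ge] at b
  exact ⟨κ, a, fun g α c => Hs g α ▸ b _ c⟩

theorem ci (f : C(UnitAddCircle, ℝ)) (σ : Measure UnitAddCircle) [IsFiniteMeasure σ] : Integrable f σ :=
  f.continuous.integrable_of_hasCompactSupport (.of_compactSpace _)

theorem spec (h : StrictMono c) (g : ∀ i, c (i + 1) ≤ c i + C * (i + 1)) (σ : Measure UnitAddCircle)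
    [IsProbabilityMeasure σ] (a : ∀ ε > 0, ∃ m, ∀ J : Finset ℕ, (∀ i ∈ J, m ≤ i) → ∫ α, H (∑ i ∈ J, c i) α ∂σ ≤ ε)
    {θ : ℝ} (p : 0 < θ) : ∃ q > 0, ∀ k, ∫ α, H (q * k) α ∂σ < θ := by
  have one : ∀ᵐ α ∂σ, ∃ m, ∀ i ≥ m + 1, ‖c i • α‖ ≤ 1 / (8 * (2 * C + 1)) := by
    obtain ⟨κ, k0, b⟩ := Hl (δ := 1 / (8 * (2 * C + 1))) (by positivity)
    refine (measureReal_eq_zero_iff (measure_ne_top σ _)).1 (le_antisymm (le_of_forall_pos_le_add fun ε e => ?_)
      measureReal_nonneg)
    obtain ⟨m, d⟩ := a (κ / 4 * ε) (by positivity)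
    set P : ℕ → C(UnitAddCircle, ℝ) := fun n => ⟨fun α => 1 - (∏ i ∈ Ico m n, ((1 + fourier (c i) α) / 2)).re, by fun_prop⟩
    have n1 : ∀ i α, ‖(1 + fourier (c i) α) / 2‖ ≤ 1 - H (c i) α / 4 := fun i α => by
      have d := nf (c i) α
      have := (Complex.abs_re_le_norm _).trans d.le
      rw [Complex.norm_eq_sqrt_sq_add_sq, Real.sqrt_eq_one] at d
      rw [Complex.norm_eq_sqrt_sq_add_sq]
      refine Real.sqrt_le_iff.2 ⟨by linarith [(abs_le.1 this).1, show H (c i) α = 1 - (fourier (c i) α).re from rfl], ?_⟩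
      simp only [H, ContinuousMap.coe_mk, Complex.div_ofNat_re, Complex.div_ofNat_im, Complex.add_re, Complex.add_im,
        Complex.one_re, Complex.one_im]
      nlinarith [sq_nonneg (1 - (fourier (c i) α).re)]
    have n2 : ∀ i α, ‖(1 + fourier (c i) α) / 2‖ ≤ 1 := fun i α => (n1 i α).trans (by linarith [H0 (c i) α])
    have n3 : ∀ n, σ.real {α | κ / 4 ≤ P n α} ≤ ε := fun n => by
      refine le_of_mul_le_mul_left ((mul_meas_ge_le_integral_of_nonneg (.of_forall fun α => sub_nonneg.2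
        ((Complex.re_le_norm _).trans ((norm_prod ..).trans_le (prod_le_one (fun _ _ => norm_nonneg _) fun i _ => n2 i α))))
        (ci (P n) σ) _).trans ?_) (show 0 < κ / 4 by positivity)
      have : ∀ α, P n α = (∑ J ∈ (Ico m n).powerset, H (∑ i ∈ J, c i) α) / 2 ^ #(Ico m n) := fun α => by
        have : ∀ J : Finset ℕ, ∏ i ∈ J, fourier (c i) α = fourier (∑ i ∈ J, c i : ℕ) α := fun J => by
          induction J using Finset.induction with
          | empty => simp
          | insert j J d ih => rw [prod_insert d, sum_insert d, ih, Nat.cast_add, fourier_add]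
        simp only [P, H, ContinuousMap.coe_mk, prod_div_distrib, prod_one_add, this, prod_const, sum_sub_distrib, sum_const,
          card_powerset, nsmul_eq_mul, ← Complex.re_sum]
        rw [show (2 : ℂ) ^ #(Ico m n) = ((2 ^ #(Ico m n) : ℝ) : ℂ) by simp, Complex.div_ofReal_re]
        field_simp
        push_cast
        ring
      change ∫ α, P n α ∂σ ≤ _
      rw [integral_congr_ae (.of_forall this), integral_div, integral_finsetSum _ fun J _ => ci _ σ, div_le_iff₀ (by positivity)]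
      refine (sum_le_card_nsmul _ _ _ fun J f => d J fun i j => (mem_Ico.1 (mem_powerset.1 f j)).1).trans_eq ?_
      simp [mul_comm]
    have n4 : Monotone fun n => {α : UnitAddCircle | ∃ i ∈ Ico m n, 1 / (8 * (2 * C + 1) : ℝ) < ‖c i • α‖} :=
      fun _ _ f _ ⟨i, j, l⟩ => ⟨i, Ico_subset_Ico_right f j, l⟩
    rw [zero_add]
    refine (measureReal_mono (fun α f => ?_)).trans (le_of_tendsto' ((ENNReal.continuousAt_toReal
      (measure_ne_top σ _)).tendsto.comp (tendsto_measure_iUnion_atTop (μ := σ) n4)) fun n => (measureReal_mono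
      fun α f => ?_).trans (n3 n))
    · simp only [Set.mem_compl_iff, Set.mem_ofPred_eq, not_exists, not_forall, not_le] at f
      obtain ⟨i, j, l⟩ := f m
      exact Set.mem_iUnion.2 ⟨i + 1, i, mem_Ico.2 ⟨by omega, by omega⟩, l⟩
    obtain ⟨i, j, l⟩ := f
    have := (Complex.re_le_norm (∏ i ∈ Ico m n, ((1 + fourier (c i) α) / 2))).trans ((norm_prod ..).trans_le
      ((mul_prod_erase _ _ j).symm.trans_le (mul_le_of_le_one_right (norm_nonneg _)
      (prod_le_one (fun _ _ => norm_nonneg _) fun i _ => n2 i α))))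
    change κ / 4 ≤ 1 - _
    linarith [n1 i α, b _ α l.le]
  have two : ∀ α : UnitAddCircle, (∀ q : ℕ, 0 < q → q • α ≠ 0) → σ {α} = 0 := fun α d => by
    obtain ⟨κ, k0, b⟩ := Hl (δ := 1 / (16 * (C + 1))) (by positivity)
    refine (measureReal_eq_zero_iff (measure_ne_top σ _)).1 (le_antisymm (le_of_forall_pos_le_add fun ε e => ?_)
      measureReal_nonneg)
    obtain ⟨m, f⟩ := a (κ * ε) (by positivity)
    obtain ⟨J, i, j⟩ := irr h g d m
    rw [zero_add]
    exact (measureReal_mono (by simpa using b _ _ j)).trans (le_of_mul_le_mul_left ((mul_meas_ge_le_integral_of_nonneg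
      (.of_forall (H0 _)) (ci _ σ) κ).trans (f J i)) k0)
  have three : ∀ᵐ α ∂σ, ∃ q : ℕ, q.factorial • α = 0 := by
    have := (measure_biUnion_null_iff ((Set.countable_iUnion (cnt h g)).mono (Set.inter_subset_left
      (t := {α | ∀ q : ℕ, 0 < q → q • α ≠ 0})))).2 fun α d => two α d.2
    filter_upwards [one, measure_eq_zero_iff_ae_notMem.1 this] with α b d
    by_contra! e
    refine d (Set.mem_biUnion (x := α) ⟨Set.mem_iUnion.2 b, fun q i j => e q ?_⟩ rfl)
    obtain ⟨k, l⟩ := Nat.dvd_factorial i le_rfl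
    rw [l, mul_comm, mul_smul, j, smul_zero]
  have := tendsto_integral_of_dominated_convergence (μ := σ) (F := fun q => {α | q.factorial • α = 0}ᶜ.indicator 2)
    (f := fun _ => (0 : ℝ)) 2 (fun q => aestronglyMeasurable_const.indicator
      (isClosed_eq (by fun_prop) continuous_const).measurableSet.compl) (integrable_const _)
    (fun q => .of_forall fun α => (norm_indicator_le_norm_self ..).trans (by simp)) (three.mono fun α ⟨q, d⟩ =>
      tendsto_const_nhds.congr' ((eventually_ge_atTop q).mono fun n e => (Set.indicator_of_notMem (not_not.2 (by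
        obtain ⟨k, l⟩ := Nat.factorial_dvd_factorial e
        rw [Set.mem_ofPred_eq, l, mul_comm, mul_smul, d, smul_zero])) _).symm))
  obtain ⟨q, d⟩ := (this.eventually (gt_mem_nhds (by simpa using p))).exists
  refine ⟨_, q.factorial_pos, fun k => (integral_mono (ci _ σ) ((integrable_const _).indicator
    (isClosed_eq (by fun_prop) continuous_const).measurableSet.compl) fun α => ?_).trans_lt d⟩
  by_cases e : q.factorial • α = 0
  · rw [Set.indicator_of_notMem (not_not.2 e), Hs, mul_comm, mul_smul, e, smul_zero]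
    simp [H]
  rw [Set.indicator_of_mem e]
  have := (abs_le.1 ((Complex.abs_re_le_norm _).trans (nf (q.factorial * k : ℕ) α).le)).1
  change 1 - _ ≤ (2 : ℝ)
  linarith

open MP_4f8442_nt in
theorem pars (Z : Finset ℕ) (g : ℕ) : ∫ α : UnitAddCircle, ‖∑ x ∈ Z, fourier x α‖ ^ 2 * 1 ∂AddCircle.haarAddCircle = (#Z : ℝ) ∧
    ∫ α, ‖∑ x ∈ Z, fourier x α‖ ^ 2 * H g α ∂AddCircle.haarAddCircle = ψ Z g := by
  have o : ∀ X Y : Finset ℕ, ∫ α : UnitAddCircle, (∑ x ∈ X, fourier x α) * (starRingEnd ℂ) (∑ x ∈ Y, fourier x α)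
      ∂AddCircle.haarAddCircle = #(X ∩ Y) := fun X Y => by
    have i : ∀ x y : ℕ, Integrable (fun α : UnitAddCircle => fourier x α * (starRingEnd ℂ) (fourier y α))
        AddCircle.haarAddCircle := fun _ _ => Continuous.integrable_of_hasCompactSupport (by fun_prop) (.of_compactSpace _)
    have j : ∀ x y : ℕ, ∫ α : UnitAddCircle, fourier x α * (starRingEnd ℂ) (fourier y α) ∂AddCircle.haarAddCircle =
        if x = y then 1 else 0 := fun x y => by
      have := orthonormal_iff_ite.1 (orthonormal_fourier (T := 1)) y x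
      rw [ContinuousMap.inner_toLp] at this
      simp [this, eq_comm, -fourier_apply]
    simp only [map_sum, sum_mul_sum]
    rw [integral_finsetSum _ fun x _ => integrable_finsetSum _ fun y _ => i x y]
    simp only [integral_finsetSum _ fun y _ => i _ y, j]
    simp [filter_mem_eq_inter]
  have a := o Z Z
  have b := o (sh Z g) Z
  have d := card_sdiff_add_card_inter (sh Z g) Z
  rw [sh, card_map, ← sh, ← ψ, ← inter_self Z, inter_self, ← Nat.cast_inj (R := ℂ), Nat.cast_add, ← b] at d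
  rw [inter_self] at a
  constructor
  · simp only [Complex.mul_conj, Complex.normSq_eq_norm_sq, integral_complex_ofReal] at a
    simp only [mul_one]
    exact_mod_cast a
  rw [← a, ← eq_sub_iff_add_eq, ← integral_sub (Continuous.integrable_of_hasCompactSupport (by fun_prop)
    (.of_compactSpace _)) (Continuous.integrable_of_hasCompactSupport (by fun_prop) (.of_compactSpace _))] at d
  rw [← Complex.natCast_re, d, ← RCLike.re_to_complex, ← integral_re (Continuous.integrable_of_hasCompactSupport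
    (by fun_prop) (.of_compactSpace _))]
  refine integral_congr_ae (.of_forall fun α => ?_)
  simp only [sh, sum_map, addRightEmbedding_apply, Nat.cast_add, fourier_add, ← sum_mul]
  rw [mul_right_comm, Complex.mul_conj, Complex.normSq_eq_norm_sq, RCLike.re_to_complex, Complex.sub_re, Complex.re_ofReal_mul,
    Complex.ofReal_re, H, ContinuousMap.coe_mk]
  ring

open MP_4f8442_nt in
theorem per {ι : Type} (V : Ultrafilter ι) (Z : ι → Finset ℕ) (z : ∀ p, (Z p).Nonempty) (h : StrictMono c)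
    (g : ∀ i, c (i + 1) ≤ c i + C * (i + 1)) (a : ∀ K, ∃ m, ∀ J : Finset ℕ, (∀ i ∈ J, m ≤ i) →
      ∀ᶠ p in V, K * ψ (Z p) (∑ i ∈ J, c i) ≤ #(Z p)) (K : ℕ) : ∃ q > 0, ∀ k, ∀ᶠ p in V, K * ψ (Z p) (q * k) ≤ #(Z p) := by
  have z' : ∀ p, (0 : ℝ) < #(Z p) := fun p => by exact_mod_cast (z p).card_pos
  have : ∀ p, ∃ σ : ProbabilityMeasure UnitAddCircle, ∀ g, ∫ α, H g α ∂σ = ψ (Z p) g / #(Z p) := fun p => by
    have i : ∀ f : UnitAddCircle → ℝ, ∫ α, f α ∂AddCircle.haarAddCircle.withDensity (fun α => .ofReal (‖∑ x ∈ Z p, fourier x α‖ ^ 2 / #(Z p))) =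
        (∫ α, ‖∑ x ∈ Z p, fourier x α‖ ^ 2 * f α ∂AddCircle.haarAddCircle) / #(Z p) := fun f => by
      rw [integral_withDensity_eq_integral_toReal_smul (by fun_prop) (by simp), ← integral_div]
      refine integral_congr_ae (.of_forall fun α => ?_)
      simp only [ENNReal.toReal_ofReal (show 0 ≤ ‖∑ x ∈ Z p, fourier x α‖ ^ 2 / #(Z p) by positivity), smul_eq_mul]
      ring
    refine ⟨⟨_, isProbabilityMeasure_iff_real.2 ?_⟩, fun g => (i _).trans (by rw [(pars ..).2])⟩
    have := i fun _ => 1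
    rwa [(pars _ 0).1, div_self (z' p).ne', integral_const, smul_eq_mul, mul_one] at this
  choose σ hσ using this
  obtain ⟨τ, -, t⟩ := isCompact_univ.ultrafilter_le_nhds (V.map σ) (by simp)
  have t : ∀ g, Tendsto (fun p => (ψ (Z p) g / #(Z p) : ℝ)) V (nhds (∫ α, H g α ∂τ)) := fun g => by
    simpa [hσ] using ProbabilityMeasure.tendsto_iff_forall_integral_tendsto.1 t (.mkOfCompact (H g))
  obtain ⟨q, b, d⟩ := spec h g τ (fun ε e => by
    obtain ⟨K, b⟩ := exists_nat_gt (1 / ε)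
    refine (a K).imp fun m d J f => le_of_tendsto (t _) ((d J f).mono fun p i => ?_)
    rw [div_lt_iff₀ e] at b
    rw [div_le_iff₀ (z' p)]
    have : (K : ℝ) * ψ (Z p) (∑ i ∈ J, c i) ≤ #(Z p) := by exact_mod_cast i
    nlinarith [Nat.cast_nonneg (α := ℝ) (ψ (Z p) (∑ i ∈ J, c i))]) (θ := 1 / (K + 1)) (by positivity)
  refine ⟨q, b, fun k => ((t _).eventually (gt_mem_nhds (d k))).mono fun p e => ?_⟩
  rw [div_lt_div_iff₀ (z' p) (by positivity)] at e
  have : ψ (Z p) (q * k) * (K + 1) < 1 * #(Z p) := by exact_mod_cast e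
  nlinarith

end Pool.Agent.H.MP_d49ebf_nt
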