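import Pool.Agent.H.MP_d49ebf_nt.A

set_option autoImplicit false

namespace Pool.Agent.H.MP_d49ebf_nt

open Finset Filter

theorem cov0 (x : ℕ → ℕ) (I : Finset ℕ) (q : ℕ) (p : 0 < q) (h : ∀ e, e ∣ q → 1 < e → e - 1 ≤ #{i ∈ I | ¬e ∣ x i}) (r : ℕ) :
    ∃ J ⊆ I, ∑ i ∈ J, x i ≡ r [MOD q] := by
  induction q using Nat.strong_induction_on with | _ q ih => ?_
  set S := fun U : Finset ℕ => U.powerset.image fun J => (∑ i ∈ J, x i) % q
  obtain ⟨U, a, b⟩ := {U ∈ I.powerset | #U + 1 ≤ #(S U)}.exists_max_image card ⟨∅, by simp [S]⟩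
  simp only [mem_filter, mem_powerset] at a b
  have s : ∀ y, y % q ∈ S U ↔ ∃ J ⊆ U, ∑ i ∈ J, x i ≡ y [MOD q] := by simp [S, Nat.ModEq]
  have t : ∀ i ∈ I, i ∉ U → ∀ y, y % q ∈ S U → (y + x i) % q ∈ S U := fun i c d y e => by
    rw [eq_of_subset_of_card_le (s := S U) (t := S (insert i U)) (image_subset_image (powerset_mono.2 (subset_insert ..)))
      (not_lt.1 fun f => by
        have := b _ ⟨insert_subset c a.1, by rw [card_insert_of_notMem d]; omega⟩
        rw [card_insert_of_notMem d] at this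
        omega)]
    obtain ⟨J, f, g⟩ := (s y).1 e
    exact mem_image.2 ⟨insert i J, mem_powerset.2 (insert_subset_insert _ f), by
      rw [sum_insert fun j => d (f j), add_comm]
      exact g.add_right _⟩
  refine ((s r).1 ?_).imp fun J c => ⟨c.1.trans a.1, c.2⟩
  by_cases c : ∀ i ∈ I, i ∉ U → q ∣ x i
  · rw [eq_of_subset_of_card_le (s := S U) (t := range q) (fun y d => by
      obtain ⟨J, -, rfl⟩ := mem_image.1 d
      exact mem_range.2 (Nat.mod_lt _ p)) ?_]
    · exact mem_range.2 (Nat.mod_lt _ p)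
    rw [card_range]
    rcases eq_or_lt_of_le (Nat.succ_le_of_lt p) with d | d
    · omega
    have := (h q dvd_rfl d).trans (card_le_card (t := U) fun i d => not_not.1 fun e => (mem_filter.1 d).2 (c i (mem_filter.1 d).1 e))
    omega
  push Not at c
  obtain ⟨i, c, d, e⟩ := c
  have f : (x i).gcd q < q := (Nat.gcd_le_right _ p).lt_of_ne fun f => e (f ▸ Nat.gcd_dvd_left ..)
  obtain ⟨J, g, j⟩ := ih _ f (Nat.gcd_pos_of_pos_right _ p) fun e g => h e (g.trans (Nat.gcd_dvd_right ..))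
  obtain ⟨m, -, l⟩ := Nat.exists_mul_mod_eq_gcd f
  have o : ∀ K : Finset ℕ, K ⊆ I → Disjoint K U → ∀ y, y % q ∈ S U → (y + ∑ i ∈ K, x i) % q ∈ S U := fun K => by
    induction K using Finset.induction with
    | empty => simp
    | insert k K u ih =>
      intro v w y z
      rw [sum_insert u, add_comm (x k), ← add_assoc]
      rw [disjoint_insert_left] at w
      exact t k (v (mem_insert_self ..)) w.1 _ (ih ((subset_insert ..).trans v) w.2 y z)
  replace o := o (J \ U) (sdiff_subset.trans g) sdiff_disjoint _ ((s _).2 ⟨J ∩ U, inter_subset_right, rfl⟩)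
  rw [sum_inter_add_sum_sdiff] at o
  generalize ∑ i ∈ J, x i = σ at *
  have u : ∀ k, (σ + k * x i) % q ∈ S U := fun k => by
    induction k with
    | zero => simpa using o
    | succ k ih => exact Nat.succ_mul k _ ▸ add_assoc σ .. ▸ t i c d _ ih
  have v : σ ≤ r + q * σ := by nlinarith
  obtain ⟨w, z⟩ := (Nat.modEq_iff_dvd' v).1 (j.trans (by
    simpa using (Nat.ModEq.refl r).add (Nat.modEq_zero_iff_dvd.2 ((Nat.gcd_dvd_right (x i) q).mul_right σ)).symm))
  have : σ + m * w * x i ≡ r [MOD q] := by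
    have : x i * m * w ≡ (x i).gcd q * w [MOD q] := (l ▸ (Nat.mod_modEq (x i * m) q).symm :).mul_right w
    rw [← z, show x i * m * w = m * w * x i by ring] at this
    refine (this.add_left σ).trans ?_
    rw [Nat.add_sub_cancel' v]
    simp [Nat.ModEq]
  exact this ▸ u (m * w)

theorem cov (x : ℕ → ℕ) (d : ℕ) {q : ℕ} (p : 0 < q) (h : ∀ e, e ∣ q → 1 < e → ∃ I : Finset ℕ,
    (∀ i ∈ I, d ∣ x i ∧ ¬d * e ∣ x i) ∧ e - 1 ≤ #I) :
    ∃ I : Finset ℕ, (∀ i ∈ I, d ∣ x i ∧ ¬d * q ∣ x i) ∧ ∀ r, ∃ J ⊆ I, ∑ i ∈ J, x i ≡ d * r [MOD d * q] := by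
  choose! I a b using h
  have c : ∀ i ∈ {e ∈ q.divisors | 1 < e}.biUnion I, d ∣ x i ∧ ¬d * q ∣ x i := fun i c => by
    simp only [mem_biUnion, mem_filter, Nat.mem_divisors] at c
    obtain ⟨e, ⟨f, g⟩, c⟩ := c
    exact ⟨(a e f.1 g i c).1, fun j => (a e f.1 g i c).2 ((mul_dvd_mul_left d f.1).trans j)⟩
  refine ⟨_, c, fun r => (cov0 (fun i => x i / d) _ q p (fun e f g => (b e f g).trans (card_le_card fun i j => mem_filter.2
    ⟨mem_biUnion.2 ⟨e, by simp [f, g, p.ne'], j⟩, fun l => (a e f g i j).2 ?_⟩)) r).imp fun J e => ⟨e.1, ?_⟩⟩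
  · exact Nat.mul_div_cancel' (a e f g i j).1 ▸ mul_dvd_mul_left d l
  have := e.2.mul_left' d
  rwa [mul_sum, sum_congr rfl fun i j => Nat.mul_div_cancel' (c i (e.1 j)).1] at this

variable {c : ℕ → ℕ} {C : ℕ}

theorem good (h : StrictMono c) (g : ∀ i, c (i + 1) ≤ c i + C * (i + 1)) : ∃ d > 0, ∀ e, 1 < e →
    ∃ I : Finset ℕ, (∀ i ∈ I, d ∣ c i ∧ ¬d * e ∣ c i) ∧ e - 1 ≤ #I := by
  by_contra! a
  have : ∀ k, ∃ d ≥ 2 ^ k, ∃ N : Finset ℕ, (∀ i, ¬d ∣ c i → i ∈ N) ∧ 2 ^ k * #N ≤ 2 * k * d := fun k => by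
    induction k with
    | zero => exact ⟨1, by simp, ∅, by simp⟩
    | succ k ih =>
      obtain ⟨d, b, N, f, j⟩ := ih
      obtain ⟨e, l, m⟩ := a d (k.two_pow_pos.trans_le b)
      have o : {i | d ∣ c i ∧ ¬d * e ∣ c i}.Finite := by
        by_contra o
        obtain ⟨I, p, q⟩ := Set.Infinite.exists_subset_card_eq o e
        have := m I p
        omega
      have := m o.toFinset (by simp)
      refine ⟨d * e, by rw [pow_succ]; exact Nat.mul_le_mul b l, N ∪ o.toFinset, fun i p => ?_, ?_⟩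
      · by_cases q : d ∣ c i <;> simp [f, p, q]
      have := Nat.mul_le_mul_left (2 ^ k) ((card_union_le N o.toFinset).trans (add_le_add_right (show _ ≤ e by omega) _))
      rw [pow_succ]
      nlinarith [Nat.mul_le_mul_right e b, Nat.mul_le_mul_left (k * d) l]
  obtain ⟨d, b, N, e, f⟩ := this (2 * (24 * (C + 1)))
  have j := card_le_card_of_injOn (fun j => if d ∣ c (2 * j) then 2 * j + 1 else 2 * j) (s := range (d / (2 * (C + 1))))
    (t := N) (fun j l => e _ ?_) fun j _ l _ m => by simp only at m; split_ifs at m <;> omega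
  · have l := Nat.lt_mul_div_succ d (show 0 < 2 * (C + 1) by omega)
    have m := (24 * (C + 1)).lt_two_pow_self
    rw [card_range] at j
    rw [pow_mul'] at b f
    generalize 2 ^ (24 * (C + 1)) = y at *
    have : d ≤ 2 * (C + 1) * (#N + 1) := by nlinarith
    have : y ^ 2 * d ≤ 2 * (C + 1) * (96 * (C + 1) + 1) * d := by nlinarith [Nat.mul_le_mul_left (y ^ 2) this]
    have := Nat.le_of_mul_le_mul_right this (by nlinarith)
    nlinarith
  dsimp only
  split_ifs with m
  swap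
  · exact m
  intro o
  have p := g (2 * j)
  have := Nat.le_of_dvd (Nat.sub_pos_of_lt (h (2 * j).lt_add_one)) (Nat.dvd_sub o m)
  have := (Nat.le_div_iff_mul_le (by omega)).1 (Nat.succ_le_of_lt (mem_range.1 (mem_coe.1 l)))
  have : d ≤ C * (2 * j + 1) := by omega
  nlinarith

theorem syn (h : StrictMono c) (g : ∀ i, c (i + 1) ≤ c i + C * (i + 1)) :
    ∃ G, ∀ y, ∃ J : Finset ℕ, ∑ i ∈ J, c i ≤ y ∧ y ≤ ∑ i ∈ J, c i + G := by
  have a : ∀ j, j * j ≤ 2 * ∑ i ∈ range j, c i + j := fun j => by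
    induction j with
    | zero => simp
    | succ j ih =>
      rw [sum_range_succ]
      nlinarith [show j ≤ c j from h.id_le j]
  refine ⟨c 0 + (C + 2) ^ 2, fun y => ?_⟩
  have : ∀ j y, y ≤ ∑ i ∈ range j, c i + (c 0 + (C + 2) ^ 2) →
      ∃ J ⊆ range j, ∑ i ∈ J, c i ≤ y ∧ y ≤ ∑ i ∈ J, c i + (c 0 + (C + 2) ^ 2) := fun j => by
    induction j with
    | zero => exact fun y b => ⟨∅, by simpa using b⟩
    | succ j ih =>
      intro y b
      rw [sum_range_succ] at b
      rcases le_total (c j) y with d | d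
      · obtain ⟨J, e, f⟩ := ih (y - c j) (by omega)
        exact ⟨insert j J, range_add_one ▸ insert_subset_insert _ e, by
          rw [sum_insert fun i => by simpa using e i]
          omega⟩
      refine (ih y (d.trans ?_)).imp fun J e => ⟨e.1.trans (by simp), e.2⟩
      rcases j with _ | j
      · omega
      rw [sum_range_succ]
      have := a j
      have := g j
      zify at *
      nlinarith [sq_nonneg ((j : ℤ) - C - 1)]
  obtain ⟨J, -, b⟩ := this (2 * y + 1) y (by nlinarith [a (2 * y + 1)])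
  exact ⟨J, b⟩

end Pool.Agent.H.MP_d49ebf_nt
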