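import Pool.Agent.H.MP_d49ebf_nt.B

set_option autoImplicit false

namespace Pool.Agent.H.MP_d49ebf_nt

open Finset Filter MP_4f8442_nt

/-- subset sums over allowed indices -/
def F (a : ℕ → ℕ) (P : ℕ → Prop) (y : ℕ) : Prop := ∃ J : Finset ℕ, (∀ j ∈ J, P j) ∧ ∑ j ∈ J, a j = y

variable {a : ℕ → ℕ} {C : ℕ}

theorem F.add {P Q R : ℕ → Prop} {x y : ℕ} (p : F a P x) (q : F a Q y) (h : ∀ j, P j → Q j → False)
    (r : ∀ j, P j ∨ Q j → R j) : F a R (x + y) := by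
  obtain ⟨I, p, rfl⟩ := p
  obtain ⟨J, q, rfl⟩ := q
  exact ⟨I ∪ J, fun j c => r j ((mem_union.1 c).imp (p j) (q j)), sum_union (disjoint_left.2 fun j c d => h j (p j c) (q j d))⟩

theorem F.of {P : ℕ → Prop} (n r : ℕ) (J : Finset ℕ) (h : ∀ i ∈ J, P (5 * (i + n) + r)) :
    F a P (∑ i ∈ J, a (5 * (i + n) + r)) :=
  ⟨J.image fun i => 5 * (i + n) + r, by simpa using h, sum_image fun _ _ _ _ c => by simpa using c⟩

theorem sub (h : StrictMono a) (g : ∀ i, a (i + 1) ≤ a i + C * (i + 1)) (n r : ℕ) :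
    StrictMono (fun i => a (5 * (i + n) + r)) ∧ ∃ C, ∀ i, a (5 * (i + 1 + n) + r) ≤ a (5 * (i + n) + r) + C * (i + 1) := by
  refine ⟨fun i j c => h (by omega), 5 * C * (5 * n + r + 5), fun i => ?_⟩
  rw [show 5 * (i + 1 + n) + r = 5 * (i + n) + r + 1 + 1 + 1 + 1 + 1 by ring]
  have : 5 * (i + n) + r + 5 ≤ (5 * n + r + 5) * (i + 1) := by nlinarith [Nat.zero_le (n * i), Nat.zero_le (r * i)]
  have := Nat.mul_le_mul_left C this
  generalize 5 * (i + n) + r = j at *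
  nlinarith [g j, g (j + 1), g (j + 1 + 1), g (j + 1 + 1 + 1), g (j + 1 + 1 + 1 + 1)]

theorem dif {U : Ultrafilter ℕ} (Z : ℕ → ℕ → Finset ℕ) (h : ∀ t, Monotone (Z · t)) (b : ∀ m t, #(Z m t) ≤ t + 1) (K : ℕ) :
    ∃ m, ∀ n, ∀ᶠ t in U, K * #(Z n t \ Z m t) ≤ t + 1 := by
  obtain ⟨j, p, q⟩ := Nat.exists_not_and_succ_of_not_zero_of_exists
    (p := fun j => ¬∃ m, ∀ᶠ t in U, j * (t + 1) ≤ K * #(Z m t)) (by simp) ⟨K + 1, fun ⟨m, c⟩ => by
      obtain ⟨t, a⟩ := c.exists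
      nlinarith [Nat.mul_le_mul_left K (b m t)]⟩
  obtain ⟨m, p⟩ := not_not.1 p
  simp only [not_exists, ← Ultrafilter.eventually_not, not_le] at q
  refine ⟨m, fun n => ?_⟩
  filter_upwards [q (max m n), p] with t c d
  have e := card_sdiff_add_card_eq_card (h t (le_max_left m n))
  have := card_le_card (sdiff_subset_sdiff (h t (le_max_right m n)) (Subset.refl (Z m t)))
  nlinarith [Nat.mul_le_mul_left K this, congrArg (K * ·) e]

open Classical in
theorem aper (h : StrictMono a) (g : ∀ i, a (i + 1) ≤ a i + C * (i + 1)) (n K : ℕ) : ∃ q > 0, ∀ L, ∃ Z : Finset ℕ,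
    Z.Nonempty ∧ (∀ x ∈ Z, F a (fun j => 5 * n ≤ j ∧ j % 5 ≤ 1) x) ∧ ∀ k < L, K * ψ Z (q * k) ≤ #Z := by
  set Z := fun m t => {x ∈ range (t + 1) | F a (fun j => 5 * n ≤ j ∧ (j % 5 = 0 ∨ j % 5 = 1 ∧ j < 5 * (m + n))) x}
  set Φ := (atTop : Filter ℕ).curry (hyperfilter ℕ : Filter ℕ)
  have : Φ.NeBot := ⟨fun c => by
    obtain ⟨_, a⟩ := (eventually_curry_iff.1 (show ∀ᶠ _ in Φ, False by simp [c])).exists
    exact a.exists.elim fun _ => id⟩
  have mono : ∀ t, Monotone (Z · t) := fun t m m' c x d => mem_filter.2 ⟨(mem_filter.1 d).1, (mem_filter.1 d).2.imp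
    fun J e => ⟨fun j f => by have := e.1 j f; omega, e.2⟩⟩
  obtain ⟨h0, C0, g0⟩ := sub h g n 0
  obtain ⟨h1, C1, g1⟩ := sub h g n 1
  obtain ⟨G, s⟩ := syn h0 g0
  choose J s using s
  have lo : ∀ m t, t + 1 < (G + 1) * (#(Z m t) + 1) := fun m t => by
    have := card_le_card_of_injOn (fun u => ∑ i ∈ J (u * (G + 1) + G), a (5 * (i + n) + 0)) (s := range ((t + 1) / (G + 1)))
      (t := Z m t) (fun u c => mem_filter.2 ⟨mem_range.2 ?_, F.of _ _ _ fun i _ => by omega⟩) fun u _ v _ c => ?_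
    · rw [card_range] at this
      nlinarith [Nat.lt_mul_div_succ (t + 1) G.succ_pos]
    · have := (Nat.le_div_iff_mul_le G.succ_pos).1 (Nat.succ_le_of_lt (mem_range.1 (mem_coe.1 c)))
      nlinarith [(s (u * (G + 1) + G)).1]
    obtain ⟨a1, a2⟩ := s (u * (G + 1) + G)
    obtain ⟨b1, b2⟩ := s (v * (G + 1) + G)
    dsimp only at c
    rcases lt_trichotomy u v with d | d | d
    · nlinarith [Nat.mul_le_mul_right (G + 1) (Nat.succ_le_of_lt d)]
    · exact d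
    nlinarith [Nat.mul_le_mul_right (G + 1) (Nat.succ_le_of_lt d)]
  have ne : ∀ p : ℕ × ℕ, (Z p.1 p.2).Nonempty := fun p => ⟨0, mem_filter.2 ⟨by simp, ∅, by simp⟩⟩
  obtain ⟨q, p, b⟩ := per (Ultrafilter.of Φ) (fun p => Z p.1 p.2) ne h1 g1 (fun K => by
    obtain ⟨m, b⟩ := dif (U := hyperfilter ℕ) Z mono (fun m t => (card_filter_le ..).trans (card_range _).le)
      (4 * (G + 1) * K)
    refine ⟨m, fun I c => (eventually_curry_iff.2 ((eventually_ge_atTop (I.sup id + 1 + m)).mono fun m' d => ?_)).filter_mono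
      (Ultrafilter.of_le Φ)⟩
    set y := ∑ i ∈ I, a (5 * (i + n) + 1)
    filter_upwards [b m', (eventually_ge_atTop (4 * (G + 1) * K * y)).filter_mono Nat.hyperfilter_le_atTop] with t e f
    have i := ψ_le (Z m' t) (Z m t) (Z m' t) y
    have j : #(sh (Z m t) y \ Z m' t) ≤ y := by
      refine (card_le_card (t := Ico (t + 1) (t + 1 + y)) fun z j => ?_).trans (by simp)
      obtain ⟨j, l⟩ := mem_sdiff.1 j
      obtain ⟨x, j', rfl⟩ := mem_sh.1 j
      obtain ⟨j, o⟩ := mem_filter.1 j'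
      refine mem_Ico.2 ⟨not_lt.1 fun r => l (mem_filter.2 ⟨mem_range.2 r, o.add (F.of (P := fun j => j % 5 = 1 ∧
        5 * (m + n) ≤ j ∧ j < 5 * (m' + n)) _ _ _ fun i r => ?_) (fun j => by omega) fun j => by omega⟩),
        by have := mem_range.1 j; omega⟩
      have := c i r
      have : i ≤ I.sup id := le_sup (f := id) r
      omega
    rw [sdiff_self, bot_eq_empty, card_empty] at i
    have := lo m' t
    have := (ne (m', t)).card_pos
    refine Nat.le_of_mul_le_mul_left (c := 4 * (G + 1)) ?_ (by omega)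
    nlinarith [Nat.mul_le_mul_left (4 * (G + 1) * K) (i.trans (add_le_add_left (add_le_add_right j _) _))]) K
  refine ⟨q, p, fun L => ?_⟩
  obtain ⟨x, c⟩ := ((eventually_all_finset (range L)).2 fun k _ => b k).exists
  exact ⟨_, ne x, fun y d => (mem_filter.1 d).2.imp fun J e => ⟨fun j f => by have := e.1 j f; omega, e.2⟩,
    fun k d => c k (mem_range.2 d)⟩

theorem main (h : StrictMono a) (g : ∀ i, a (i + 1) ≤ a i + C * (i + 1)) : ∃ j, F a (· ≠ j) (a j) := by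
  classical
  obtain ⟨h2, C2, g2⟩ := sub h g 0 2
  obtain ⟨d, d0, d1⟩ := good h2 g2
  obtain ⟨e, e1, e2⟩ := {e ∈ d.divisors | {i | ¬e ∣ a i}.Finite}.exists_max_image id ⟨1, by simp [d0.ne']⟩
  simp only [mem_filter, Nat.mem_divisors, id] at e1 e2
  obtain ⟨⟨⟨f, rfl⟩, -⟩, e1⟩ := e1
  obtain ⟨X, x1, x2⟩ := cov a e (Nat.pos_of_mul_pos_left d0) fun u b c => by
    have : {i | ¬e * u ∣ a i}.Infinite := fun i => by
      nlinarith [e2 _ ⟨⟨mul_dvd_mul_left e b, d0.ne'⟩, i⟩, Nat.pos_of_mul_pos_right d0]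
    obtain ⟨I, i, j⟩ := (this.sdiff e1).exists_subset_card_eq u
    exact ⟨I, fun l m => ⟨not_not.1 (i m).2, (i m).1⟩, by omega⟩
  obtain ⟨n, hn⟩ := (e1.union X.finite_toSet).bddAbove
  have n1 : ∀ j, 5 * (n + 1) ≤ j → e ∣ a j := fun j b => not_not.1 fun c => by have := hn (.inl c); omega
  have n2 : ∀ j ∈ X, j ≤ n := fun j b => hn (.inr b)
  have n3 : ∀ P y, F a P y → (∀ j, P j → 5 * (n + 1) ≤ j) → e ∣ y := fun P y ⟨J, b, c⟩ l =>
    c ▸ dvd_sum fun j m => n1 j (l j (b j m))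
  obtain ⟨h3, C3, g3⟩ := sub h g (n + 1) 3
  obtain ⟨G, s⟩ := syn h3 g3
  set W := G + ∑ j ∈ X, a j + 1
  obtain ⟨q, q0, b⟩ := aper h g (n + 1) (4 * W)
  obtain ⟨I, i1, i2⟩ := cov _ (e * f) q0 fun u _ c => d1 u c
  choose J i2 using i2
  set Y := ∑ i ∈ I, a (5 * (i + 0) + 2)
  set d := e * f
  obtain ⟨Z, z0, z1, z2⟩ := b (d * (2 * W * (Y + 1)))
  obtain ⟨x, c, c'⟩ : ∃ x ∈ Z, #((range (2 * W * (Y + 1))).bipartiteAbove (fun x k => x + d * q * k ∉ Z) x) < Y + 1 := by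
    by_contra! c
    have := card_mul_le_card_mul _ c (n := #Z / (4 * W)) fun k l => ?_
    · rw [card_range] at this
      nlinarith [Nat.mul_div_le #Z (4 * W), z0.card_pos]
    refine le_trans (card_le_card_of_injOn (· + d * q * k) (fun x c => ?_) fun x _ y _ c => add_right_cancel c)
      ((Nat.le_div_iff_mul_le (by omega)).2 ((mul_comm ..).trans_le
      (z2 (d * k) (Nat.mul_lt_mul_of_pos_left (mem_range.1 l) d0))))
    obtain ⟨e, f⟩ := (mem_bipartiteBelow _).1 c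
    exact mem_sdiff.2 ⟨mem_sh.2 ⟨_, e, by ring⟩, f⟩
  set j := 5 * (x + Y + d * q * (Y + 1) * W + W + (n + 1)) + 4
  refine ⟨j, by_contra fun m => ?_⟩
  have : ∀ i, ∃ p : ℕ × ℕ, i < d * q * (Y + 1) → p ∈ (range (2 * W * (Y + 1))).bipartiteAbove
      (fun x k => x + d * q * k ∉ Z) x ×ˢ range (d * q) ∧ Y + i * W ≤ ∑ i ∈ J (p.2 / d), a (5 * (i + 0) + 2) + d * q * p.1 ∧
      ∑ i ∈ J (p.2 / d), a (5 * (i + 0) + 2) + d * q * p.1 < Y + (i + 1) * W := fun i => by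
    by_cases l : i < d * q * (Y + 1)
    swap
    · exact ⟨0, fun o => absurd o l⟩
    have o : j ≤ a j := h.id_le j
    have o' := Nat.mul_le_mul_right W (Nat.succ_le_of_lt l)
    rw [Nat.succ_mul] at o'
    obtain ⟨S, s1, s2⟩ := s (a j - (x + Y + i * W + ∑ j ∈ X, a j))
    have s3 := F.of (a := a) (P := fun j => 5 * (n + 1) ≤ j ∧ j % 5 = 3) (n + 1) 3 S fun i _ => by omega
    generalize ∑ i ∈ S, a (5 * (i + (n + 1)) + 3) = σ at *
    obtain ⟨r, t⟩ := Nat.dvd_sub (Nat.dvd_sub (n1 j (by omega)) (n3 _ _ s3 fun _ => And.left)) (n3 _ _ (z1 x c) fun _ => And.left)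
    obtain ⟨T, t1, t2⟩ := x2 r
    have t3 := sum_le_sum_of_subset (f := a) t1
    obtain ⟨w, u⟩ := (Nat.modEq_iff_dvd' (by omega)).1 t2
    obtain ⟨u1, u2⟩ := i2 (d * w % (d * q) / d)
    rw [Nat.mul_div_cancel' ((Nat.dvd_mod_iff (dvd_mul_right ..)).2 (dvd_mul_right ..))] at u2
    have u3 := sum_le_sum_of_subset (f := fun i => a (5 * (i + 0) + 2)) u1
    obtain ⟨k, v⟩ := (Nat.modEq_iff_dvd' (by omega)).1 (u2.trans (Nat.mod_modEq ..))
    refine ⟨(k, d * w % (d * q)), fun _ => ⟨mem_product.2 ⟨(mem_bipartiteAbove _).2 ⟨mem_range.2 ?_, fun y => m ?_⟩,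
      mem_range.2 (Nat.mod_lt _ (by positivity))⟩, by dsimp only; omega, by dsimp only; rw [Nat.succ_mul]; omega⟩⟩
    · refine Nat.lt_of_mul_lt_mul_left (a := d * q) ?_
      have : d * q * k < Y + d * q * (Y + 1) * W := by omega
      have : 1 * (Y + 1) * 1 ≤ d * q * (Y + 1) * W := by gcongr; exacts [Nat.mul_pos d0 q0, by omega]
      nlinarith
    have := (((z1 _ y).add s3 (fun _ => by omega) (R := fun l => 5 * (n + 1) ≤ l ∧ l % 5 ≠ 2 ∧ l % 5 ≠ 4)
      fun _ => by omega).add (Q := fun l => l % 5 = 2 ∧ d ∣ a l) (F.of 0 2 _ fun l o => ⟨by omega, (i1 l (u1 o)).1⟩)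
      (fun _ => by omega) (R := fun l => l % 5 ≠ 4 ∧ (5 * (n + 1) ≤ l ∨ d ∣ a l)) fun _ => by omega).add (Q := (· ∈ X))
      ⟨T, t1, rfl⟩ (fun l p r => p.2.elim (fun p => by have := n2 l r; omega) (x1 l r).2) (R := (· ≠ j))
      fun l p => p.elim (fun p => by omega) fun p => by have := n2 l p; omega
    convert this using 1
    dsimp only
    omega
  choose p hp using this
  have := card_le_card_of_injOn p (s := range (d * q * (Y + 1))) (fun i l => (hp i (mem_range.1 l)).1) fun i l i' l' o => by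
    obtain ⟨-, a1, a2⟩ := hp i (mem_range.1 l)
    obtain ⟨-, b1, b2⟩ := hp i' (mem_range.1 l')
    rw [o] at a1 a2
    rcases lt_trichotomy i i' with r | r | r
    · nlinarith [Nat.mul_le_mul_right W (Nat.succ_le_of_lt r)]
    · exact r
    nlinarith [Nat.mul_le_mul_right W (Nat.succ_le_of_lt r)]
  rw [card_product, card_range, card_range] at this
  nlinarith [Nat.mul_pos d0 q0]

end Pool.Agent.H.MP_d49ebf_nt
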